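import Mathlib
import Pool.Agent.Lib.MP_f3b2fd_co.KEP.B.EnumT

set_option autoImplicit false
set_option linter.unusedSectionVars false
set_option linter.unusedVariables false

namespace Pool.Agent.Lib.MP_f3b2fd_co.KEP.Ef

open En

/-- start of a row; the lowest 64 bits of every mask only serve as a hash -/
def off (a : ℕ) : ℕ := Nat.add (Nat.shiftLeft a 4) 64
/-- position of a directed edge -/
def ix (a b : ℕ) : ℕ := Nat.add (off a) b
/-- position of a dart -/
def ix3 (a b c : ℕ) : ℕ := Nat.add (off (Nat.add (Nat.shiftLeft a 4) b)) c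
/-- the hash of a triangle -/
def sl (p q r : ℕ) : ℕ :=
  Nat.land (Nat.mul (Nat.pow (ix3 p q r) 3) 11400714819323198485) 18446744073709551615
/-- the three directed edges of a triangle -/
def dO (p q r : ℕ) : ℕ := Nat.lor (Nat.lor (bt (ix p q)) (bt (ix q r))) (bt (ix r p))
/-- with the hash -/
def dE (p q r : ℕ) : ℕ := Nat.xor (dO p q r) (sl p q r)
/-- the six directed edges -/
def dS (p q r : ℕ) : ℕ := Nat.lor (dO p q r) (dO p r q)
/-- the three darts with the hash -/
def dD (p q r : ℕ) : ℕ :=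
  Nat.xor (Nat.lor (Nat.lor (bt (ix3 p q r)) (bt (ix3 q r p))) (bt (ix3 r p q))) (sl p q r)
/-- add three edges that may be present -/
def addO (E p q r : ℕ) : ℕ := Nat.xor (Nat.lor E (dO p q r)) (sl p q r)
/-- at most `c` ones -/
def capB (c r : ℕ) : Bool := Nat.ble (pc r) c
/-- at most `c` known neighbours -/
noncomputable def vok (c S v : ℕ) : Bool :=
  Nat.rec (motive := fun _ => Bool) false (fun r _ => capB c r)
    (Nat.add (Nat.land (Nat.shiftRight S (off v)) 65535) 1)
theorem off_eq (a : ℕ) : off a = 16 * a + 64 := by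
  show Nat.shiftLeft a 4 + 64 = _
  rw [sl4]

theorem ix_eq (a b : ℕ) : ix a b = 16 * a + b + 64 := by
  show off a + b = _
  rw [off_eq]; ring

theorem ix3_eq (a b c : ℕ) : ix3 a b c = 256 * a + 16 * b + c + 64 := by
  show off (Nat.shiftLeft a 4 + b) + c = _
  rw [off_eq, sl4]; ring

theorem test_sl (p q r k : ℕ) : (sl p q r).testBit (k + 64) = false := by
  rw [sl, test_land, show (18446744073709551615 : ℕ) = 2 ^ 64 - 1 from rfl,
    Nat.testBit_two_pow_sub_one]
  simp

theorem test_dO (p q r k : ℕ) : (dO p q r).testBit (k + 64) = true ↔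
    16 * p + q = k ∨ 16 * q + r = k ∨ 16 * r + p = k := by
  simp only [dO, test_lor, test_bt, ix_eq, Bool.or_eq_true, decide_eq_true_eq]
  omega

theorem test_addO (E p q r k : ℕ) : (addO E p q r).testBit (k + 64) = true ↔
    E.testBit (k + 64) = true ∨ 16 * p + q = k ∨ 16 * q + r = k ∨ 16 * r + p = k := by
  rw [addO, test_xor, test_sl, Bool.xor_false, test_lor, Bool.or_eq_true, test_dO]

theorem test_dD {D p q r k : ℕ} (h : (Nat.xor D (dD p q r)).testBit (k + 64) = true) :
    D.testBit (k + 64) = true ∨ 256 * p + 16 * q + r = k ∨ 256 * q + 16 * r + p = k ∨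
      256 * r + 16 * p + q = k := by
  rw [dD, test_xor, test_xor, test_sl, Bool.xor_false] at h
  by_cases d : D.testBit (k + 64) = true
  · exact Or.inl d
  · rw [Bool.eq_false_iff.2 d, Bool.false_xor] at h
    simp only [test_lor, test_bt, ix3_eq, Bool.or_eq_true, decide_eq_true_eq] at h
    omega

theorem test_dE {E p q r k : ℕ} (h : (dO p q r).testBit (k + 64) = true →
    ¬E.testBit (k + 64) = true) : (Nat.xor E (dE p q r)).testBit (k + 64) = true ↔
    E.testBit (k + 64) = true ∨ 16 * p + q = k ∨ 16 * q + r = k ∨ 16 * r + p = k := by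
  rw [dE, test_xor, test_xor, test_sl, Bool.xor_false, ← test_dO]
  revert h
  cases E.testBit (k + 64) <;> cases (dO p q r).testBit (k + 64) <;> simp

/-- The masks describe the list. -/
structure Rep (n E ET D : ℕ) (L : List Tr) : Prop where
  ok : Ok n L
  pos : 0 < n
  le : n ≤ 16
  hE : ∀ a b, b < 16 → (E.testBit (16 * a + b + 64) = true ↔ Kn L a b)
  hT : ∀ a b, b < 16 → (ET.testBit (16 * a + b + 64) = true ↔ Kn L b a)
  hD : ∀ a b c, b < 16 → c < 16 → D.testBit (256 * a + 16 * b + c + 64) = true →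
    (a, b, c) ∈ darts L

theorem or_kn {L : List Tr} {p q r a b : ℕ} (hp : p < 16) (hq : q < 16) (hr : r < 16)
    (hb : b < 16) : (Kn L a b ∨ 16 * p + q = 16 * a + b ∨ 16 * q + r = 16 * a + b ∨
      16 * r + p = 16 * a + b) ↔ Kn ((p, q, r) :: L) a b := by
  rw [kn_cons]
  by_cases k : Kn L a b <;> simp only [k, or_true, true_or, false_or, or_false]
  omega

theorem or_kn' {L : List Tr} {p q r a b : ℕ} (hp : p < 16) (hq : q < 16) (hr : r < 16)
    (hb : b < 16) : (Kn L b a ∨ 16 * p + r = 16 * a + b ∨ 16 * r + q = 16 * a + b ∨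
      16 * q + p = 16 * a + b) ↔ Kn ((p, q, r) :: L) b a := by
  rw [kn_cons]
  by_cases k : Kn L b a <;> simp only [k, or_true, true_or, false_or, or_false]
  omega

theorem or_dart {L : List Tr} {p q r a b c : ℕ} (hp : p < 16) (hq : q < 16) (hr : r < 16)
    (hb : b < 16) (hc : c < 16) (h : (a, b, c) ∈ darts L ∨
      256 * p + 16 * q + r = 256 * a + 16 * b + c ∨ 256 * q + 16 * r + p = 256 * a + 16 * b + c ∨
      256 * r + 16 * p + q = 256 * a + 16 * b + c) : (a, b, c) ∈ darts ((p, q, r) :: L) := by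
  simp only [darts, List.mem_cons, Prod.mk.injEq]
  rcases h with h | h
  · exact Or.inr (Or.inr (Or.inr h))
  · omega

theorem Rep.add {n n' E ET D : ℕ} {L : List Tr} (R : Rep n E ET D L) {a b d : ℕ} (h1 : Kn L a b)
    (h2 : ¬Kn L b a) (h3 : ¬Kn L a d) (h4 : ¬Kn L d b) (hn : n ≤ n') (hd : d < n')
    (hi : ∀ i < n', i < n ∨ i = d) (le : n' ≤ 16) :
    Rep n' (Nat.xor E (dE b a d)) (Nat.xor ET (dE b d a)) (Nat.xor D (dD b a d))
      ((b, a, d) :: L) := by
  have ha : a < 16 := (R.ok.lt1 h1).trans_le R.le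
  have hb : b < 16 := (R.ok.lt2 h1).trans_le R.le
  have hd' : d < 16 := hd.trans_le le
  refine ⟨R.ok.step h1 h2 h3 h4 hn hd hi, by omega, le, fun x y hy => ?_, fun x y hy => ?_,
    fun x y z hy hz k => or_dart hb ha hd' hy hz ((test_dD k).imp_left (R.hD x y z hy hz))⟩
  · rw [test_dE, R.hE x y hy, or_kn hb ha hd' hy]
    rw [test_dO, R.hE x y hy]
    rintro (q | q | q)
    · obtain ⟨rfl, rfl⟩ : b = x ∧ a = y := by omega
      exact h2
    · obtain ⟨rfl, rfl⟩ : a = x ∧ d = y := by omega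
      exact h3
    · obtain ⟨rfl, rfl⟩ : d = x ∧ b = y := by omega
      exact h4
  · rw [test_dE, R.hT x y hy, or_kn' hb ha hd' hy]
    rw [test_dO, R.hT x y hy]
    rintro (q | q | q)
    · obtain ⟨rfl, rfl⟩ : b = x ∧ d = y := by omega
      exact h4
    · obtain ⟨rfl, rfl⟩ : d = x ∧ a = y := by omega
      exact h3
    · obtain ⟨rfl, rfl⟩ : a = x ∧ b = y := by omega
      exact h2

/-- the edge mask of a list -/
noncomputable def mkE (L : List Tr) : ℕ := List.rec 0 (fun t _ ih => addO ih t.1 t.2.1 t.2.2) L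
/-- the transposed edge mask of a list -/
noncomputable def mkT (L : List Tr) : ℕ := List.rec 0 (fun t _ ih => addO ih t.1 t.2.2 t.2.1) L
/-- the dart mask of a list -/
noncomputable def mkD (L : List Tr) : ℕ :=
  List.rec 0 (fun t _ ih => Nat.xor ih (dD t.1 t.2.1 t.2.2)) L

theorem ok_rep {n : ℕ} {L : List Tr} (o : Ok n L) (pos : 0 < n) (le : n ≤ 16) :
    Rep n (mkE L) (mkT L) (mkD L) L := by
  have lt : ∀ t ∈ L, t.1 < 16 ∧ t.2.1 < 16 ∧ t.2.2 < 16 := fun t ht =>
    ⟨(o.lt _ _ _ (mem_darts ht)).trans_le le, (o.lt _ _ _ (darts_rot (mem_darts ht))).trans_le le,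
      (o.lt _ _ _ (darts_rot (darts_rot (mem_darts ht)))).trans_le le⟩
  refine ⟨o, pos, le, fun a b hb => ?_, fun a b hb => ?_, fun a b c hb hc => ?_⟩ <;> clear o <;>
    induction L with
    | nil => simp [mkE, mkT, mkD, Kn, darts]
    | cons t L ih =>
      obtain ⟨p, q, r⟩ := t
      obtain ⟨hp, hq, hr⟩ := lt _ List.mem_cons_self
      have ih := ih fun t ht => lt t (List.mem_cons_of_mem _ ht)
      first
        | exact (test_addO _ _ _ _ _).trans ((or_congr_left ih).trans (or_kn hp hq hr hb))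
        | exact (test_addO _ _ _ _ _).trans ((or_congr_left ih).trans (or_kn' hp hq hr hb))
        | exact fun k => or_dart hp hq hr hb hc ((test_dD k).imp_left ih)

variable {V : Type} [Fintype V] [DecidableEq V] {T : Finset (V × V × V)} {n E ET D : ℕ}
  {L : List Tr} {ι : ℕ → V}

/-- the degree test passes at every labelled vertex of the grown state -/
theorem Rep.vok (R : Rep n E ET D L) (h : IsCx T) {n' b a d c : ℕ} (o : Ok n' ((b, a, d) :: L))
    (le : n' ≤ 16) (e : Emb T n' ((b, a, d) :: L) ι) (hc : ∀ w, deg T w ≤ c) (v : ℕ) :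
    vok c (Nat.lor (Nat.lor E ET) (dS b a d)) v = true := by
  have hb := (o.lt b a d (by simp [darts])).trans_le le
  have ha := (o.lt a d b (by simp [darts])).trans_le le
  have hd := (o.lt d b a (by simp [darts])).trans_le le
  refine Nat.ble_eq_true_of_le (le_trans ?_ (hc (ι v)))
  rw [pc_eq]
  refine e.nb_le h o v _ fun x hx => ?_
  rw [Finset.mem_filter, Finset.mem_range, test_land, test_sr, off_eq,
    show 16 * v + 64 + x = 16 * v + x + 64 by ring, dS] at hx
  simp only [test_lor, Bool.or_eq_true, Bool.and_eq_true, test_dO, R.hE _ _ hx.1,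
    R.hT _ _ hx.1] at hx
  rw [← or_kn hb ha hd hx.1, ← or_kn' hb ha hd hx.1]
  rcases hx.2.1 with (k | k) | k | k
  exacts [Or.inl (Or.inl k), Or.inr (Or.inl k), Or.inl (Or.inr k), Or.inr (Or.inr k)]

theorem Rep.card (R : Rep n E ET D L) (h : IsCx T) (e : Emb T n L ι)
    (c : Nat.beq (Nat.shiftRight (Nat.xor E ET) 64) 0 = true) : n = Fintype.card V := by
  refine (e.complete h R.ok R.pos fun a b k => ?_).2
  have hb : b < 16 := (R.ok.lt2 k).trans_le R.le
  have z := congrArg (fun x => Nat.testBit x (16 * a + b)) (Nat.eq_of_beq_eq_true c)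
  simp only [test_sr, test_xor, Nat.zero_testBit] at z
  rw [add_comm, (R.hE _ _ hb).2 k] at z
  refine (R.hT _ _ hb).1 ?_
  simpa using z

/-- the images of the labels below `k` -/
noncomputable def imM (σ k : ℕ) : ℕ := Nat.rec 0 (fun i m => Nat.lor m (bt (fld σ i))) k

theorem imM_test (σ k j : ℕ) : (imM σ k).testBit j = true ↔ ∃ i < k, fld σ i = j := by
  induction k with
  | zero => simp [imM]
  | succ k ih =>
    show (Nat.lor (imM σ k) (bt (fld σ k))).testBit j = true ↔ _
    rw [test_lor, test_bt, Bool.or_eq_true, ih, decide_eq_true_eq, Nat.exists_lt_succ_right]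

theorem imM_spec {σ n : ℕ} (c : Nat.beq (Nat.succ (imM σ n)) (bt n) = true) :
    (∀ i < n, fld σ i < n) ∧ ∀ i < n, ∀ j < n, fld σ i = fld σ j → i = j := by
  have c1 : imM σ n = 2 ^ n - 1 := by
    have : imM σ n + 1 = 1 <<< n := Nat.eq_of_beq_eq_true c
    rw [Nat.one_shiftLeft] at this
    omega
  have k : ∀ j, j < n ↔ ∃ i < n, fld σ i = j := fun j => by
    rw [← imM_test, c1, Nat.testBit_two_pow_sub_one, decide_eq_true_eq]
  have lt : ∀ i < n, fld σ i < n := fun i hi => (k _).2 ⟨i, hi, rfl⟩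
  have s : Function.Surjective fun i : Fin n => (⟨fld σ i, lt i i.2⟩ : Fin n) := fun j => by
    obtain ⟨i, hi, q⟩ := (k j).1 j.2
    exact ⟨⟨i, hi⟩, Fin.ext q⟩
  exact ⟨lt, fun i hi j hj q => congrArg Fin.val
    (Finite.injective_iff_surjective.2 s (a₁ := ⟨i, hi⟩) (a₂ := ⟨j, hj⟩) (Fin.ext q))⟩

/-- position of the reversed dart -/
def ix3r (a b c : ℕ) : ℕ := Nat.add (off (Nat.add (Nat.shiftLeft a 4) c)) b

/-- all triangles of a list are mapped to set bits -/
noncomputable def allD (g : ℕ → ℕ → ℕ → ℕ) (D σ : ℕ) (L' : List Tr) : Bool :=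
  List.rec true (fun t _ ih => Prod.rec (fun a s => Prod.rec (fun b c =>
    Nat.rec (motive := fun _ => Bool) false (fun _ _ => ih)
      (Nat.land (Nat.shiftRight D (g (fld σ a) (fld σ b) (fld σ c))) 1)) s) t) L'

theorem allD_spec {g : ℕ → ℕ → ℕ → ℕ} {σ : ℕ} {L' : List Tr} (c : allD g D σ L' = true) :
    ∀ t ∈ L', D.testBit (g (fld σ t.1) (fld σ t.2.1) (fld σ t.2.2)) = true := by
  induction L' with
  | nil => simp
  | cons t L' ih =>
    obtain ⟨a, b, c'⟩ := t
    have c : Nat.rec (motive := fun _ => Bool) false (fun _ _ => allD g D σ L')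
      ((D >>> g (fld σ a) (fld σ b) (fld σ c')) &&& 1) = true := c
    rw [Nat.and_one_is_mod] at c
    rcases Nat.mod_two_eq_zero_or_one (D >>> g (fld σ a) (fld σ b) (fld σ c')) with q | q <;>
      rw [q] at c
    · exact Bool.noConfusion c
    intro t ht
    rcases List.mem_cons.1 ht with rfl | ht
    · rw [← tb_eq]
      show Nat.beq ((D >>> g (fld σ a) (fld σ b) (fld σ c')) &&& 1) 1 = true
      rw [Nat.and_one_is_mod, q]
      rfl
    · exact ih c t ht

theorem Rep.goto (R : Rep n E ET D L) (h : IsCx T) (e : Emb T n L ι) {σ : ℕ} {L' : List Tr}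
    (c : Nat.beq (Nat.succ (imM σ n)) (bt n) = true) (d : allD ix3 D σ L' = true) :
    Emb T n L' fun i => ι (fld σ i) :=
  e.goto h _ (imM_spec c).1 (imM_spec c).2 fun t ht =>
    R.hD _ _ _ (fld_lt _ _) (fld_lt _ _) (by rw [← ix3_eq]; exact allD_spec d t ht)

theorem Rep.goto_mir (R : Rep n E ET D L) (h : IsCx T) (e : Emb T n L ι) {σ : ℕ} {L' : List Tr}
    (c : Nat.beq (Nat.succ (imM σ n)) (bt n) = true) (d : allD ix3r D σ L' = true) :
    Emb (mirT T) n L' fun i => ι (fld σ i) :=
  e.goto_mir h _ (imM_spec c).1 (imM_spec c).2 fun t ht =>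
    R.hD _ _ _ (fld_lt _ _) (fld_lt _ _) (by rw [← ix3_eq]; exact allD_spec d t ht)

/-- the bit of an edge; a diagonal bit if the label is too large -/
noncomputable def eb (p x : ℕ) : ℕ := Bool.rec (bt 64) (bt (ix p x)) (Nat.blt x 16)

/-- the mask of the walk -/
noncomputable def wm (a : ℕ) (l : List ℕ) : ℕ → ℕ :=
  List.rec (fun p => eb p a) (fun x _ ih p => Nat.lor (eb p x) (ih x)) l

theorem eb_test (p x : ℕ) :
    (eb p x).testBit 64 = true ∨ x < 16 ∧ (eb p x).testBit (16 * p + x + 64) = true := by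
  unfold eb
  cases c : Nat.blt x 16
  · left; simp [test_bt]
  · right; exact ⟨by simpa using c, by simp [test_bt, ix_eq]⟩

theorem wm_test (a : ℕ) (l : List ℕ) (p : ℕ) : (wm a l p).testBit 64 = true ∨
    ∀ q ∈ prs a l p, q.2 < 16 ∧ (wm a l p).testBit (16 * q.1 + q.2 + 64) = true := by
  induction l generalizing p with
  | nil => exact (eb_test p a).imp id fun k q hq => by rw [List.mem_singleton.1 hq]; exact k
  | cons x l ih =>
    have e : wm a (x :: l) p = Nat.lor (eb p x) (wm a l x) := rfl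
    simp only [e, test_lor, Bool.or_eq_true]
    rcases eb_test p x with k | k
    · exact Or.inl (Or.inl k)
    rcases ih x with k' | k'
    · exact Or.inl (Or.inr k')
    refine Or.inr fun q hq => ?_
    rcases List.mem_cons.1 hq with rfl | hq
    · exact ⟨k.1, Or.inl k.2⟩
    · exact ⟨(k' q hq).1, Or.inr (k' q hq).2⟩

/-- row of excluded third vertices, `R` being the known edges off the walk -/
def badR (E ET R a b : ℕ) : ℕ :=
  Nat.land (Nat.lor (Nat.shiftRight E (off a)) (Nat.shiftRight (Nat.lor ET R) (off b))) 65535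

/-- `d` is excluded -/
noncomputable def badB (B R a d : ℕ) : Bool := Bool.rec (tb R (ix d a)) true (tb B d)

/-- Growth across the first edge of the walk `a :: b :: l`. -/
theorem Rep.grow (R : Rep n E ET D L) (h : IsCx T) (e : Emb T n L ι) {a b : ℕ} {l : List ℕ}
    (w : Nat.beq (Nat.land (wm a (b :: l) a) (Nat.xor E (Nat.land E ET))) (wm a (b :: l) a)
      = true) :
    (n < Fintype.card V ∧ ∃ ι' : ℕ → V, Emb T (n + 1) ((b, a, n) :: L) ι' ∧
      (n < 16 → Rep (n + 1) (Nat.xor E (dE b a n)) (Nat.xor ET (dE b n a)) (Nat.xor D (dD b a n))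
        ((b, a, n) :: L))) ∨
    ∃ d ∈ l, badB (badR E ET (Nat.xor E (wm a (b :: l) a)) a b) (Nat.xor E (wm a (b :: l) a)) a d
        = false ∧ Emb T n ((b, a, d) :: L) ι ∧
      Rep n (Nat.xor E (dE b a d)) (Nat.xor ET (dE b d a)) (Nat.xor D (dD b a d))
        ((b, a, d) :: L) := by
  have w1 := Nat.eq_of_beq_eq_true w
  have sub : ∀ j, (wm a (b :: l) a).testBit j = true → E.testBit j = true ∧ ET.testBit j = false := by
    intro j hj
    have := congrArg (fun x => Nat.testBit x j) w1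
    simp only [test_land, test_xor, hj, Bool.true_and] at this
    revert this
    cases E.testBit j <;> cases ET.testBit j <;> simp
  have wt := (wm_test a (b :: l) a).resolve_left fun k => by
    have := (R.hT 0 0 (by norm_num)).2 ((R.hE 0 0 (by norm_num)).1 (sub _ k).1)
    rw [(sub _ k).2] at this
    exact Bool.noConfusion this
  have op : ∀ p ∈ prs a (b :: l) a, Kn L p.1 p.2 ∧ ¬Kn L p.2 p.1 := by
    intro p hp
    obtain ⟨l2, k⟩ := wt p hp
    obtain ⟨s1, s2⟩ := sub _ k
    exact ⟨(R.hE _ _ l2).1 s1, fun k => by rw [(R.hT _ _ l2).2 k] at s2; exact Bool.noConfusion s2⟩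
  have m : (a, b) ∈ prs a (b :: l) a := List.mem_cons_self
  obtain ⟨k1, k2⟩ := op _ m
  have la : a < 16 := (R.ok.lt1 k1).trans_le R.le
  rcases e.grow h R.ok _ (by rw [prs_fst, prs_snd]; exact (List.perm_append_singleton _ _).symm)
    op m with ⟨hn, ι', ag, e'⟩ | ⟨d, hd, da, db, c1, c2, c3, c4, -, e'⟩
  · exact Or.inl ⟨hn, ι', e', fun l16 => R.add k1 k2 (fun k => (R.ok.lt2 k).false)
      (fun k => (R.ok.lt1 k).false) n.le_succ n.lt_succ_self (fun i hi => by omega) l16⟩
  · have dn : d < n := by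
      obtain ⟨p, hp, rfl⟩ := List.mem_map.1 hd
      exact R.ok.lt1 (op p hp).1
    rw [prs_fst] at hd
    have hl : d ∈ l := by simpa [da, db] using hd
    have ld : d < 16 := dn.trans_le R.le
    have of : ∀ u v, v < 16 → (Kn L u v → (u, v) ∈ prs a (b :: l) a) →
        (Nat.xor E (wm a (b :: l) a)).testBit (16 * u + v + 64) = false := by
      intro u v hv k
      rw [test_xor]
      cases q : E.testBit (16 * u + v + 64)
      · cases q' : (wm a (b :: l) a).testBit (16 * u + v + 64)
        · rfl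
        · rw [(sub _ q').1] at q; exact Bool.noConfusion q
      · rw [(wt _ (k ((R.hE _ _ hv).1 q))).2]; rfl
    refine Or.inr ⟨d, hl, ?_, e', R.add k1 k2 c1 c2 le_rfl dn (fun i hi => Or.inl hi) R.le⟩
    simp only [badB, badR, tb_eq, test_lor, test_land, test_sr, off_eq, ix_eq,
      show ∀ u, 16 * u + 64 + d = 16 * u + d + 64 from fun u => by ring, of b d ld c4,
      of d a la c3, Bool.eq_false_iff.2 fun q => c1 ((R.hE _ _ ld).1 q),
      Bool.eq_false_iff.2 fun q => c2 ((R.hT _ _ ld).1 q)]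
    rfl

end Pool.Agent.Lib.MP_f3b2fd_co.KEP.Ef
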