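import Pool.Agent.Lib.MP_f3b2fd_co.KEP.B.Cv.OkG
import Pool.Agent.Lib.MP_f3b2fd_co.KEP.B.Cv.E6_0
import Pool.Agent.Lib.MP_f3b2fd_co.KEP.B.Cv.E6_1
import Pool.Agent.Lib.MP_f3b2fd_co.KEP.B.Cv.E6_2
import Pool.Agent.Lib.MP_f3b2fd_co.KEP.B.Cv.E7_0
import Pool.Agent.Lib.MP_f3b2fd_co.KEP.B.Cv.E7_1
import Pool.Agent.Lib.MP_f3b2fd_co.KEP.B.Cv.E7_2
import Pool.Agent.Lib.MP_f3b2fd_co.KEP.B.Cv.E7_3
import Pool.Agent.Lib.MP_f3b2fd_co.KEP.B.Cv.E7_4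
import Pool.Agent.Lib.MP_f3b2fd_co.KEP.B.Cv.E7_5
import Pool.Agent.Lib.MP_f3b2fd_co.KEP.B.Cv.E7_6
import Pool.Agent.Lib.MP_f3b2fd_co.KEP.B.Cv.E7_7
import Pool.Agent.Lib.MP_f3b2fd_co.KEP.B.Cv.E7_8
import Pool.Agent.Lib.MP_f3b2fd_co.KEP.B.Cv.E7_9
import Pool.Agent.Lib.MP_f3b2fd_co.KEP.B.Cv.E7_10
import Pool.Agent.Lib.MP_f3b2fd_co.KEP.B.Cv.E7_11

set_option autoImplicit false
set_option maxRecDepth 100000

namespace Pool.Agent.Lib.MP_f3b2fd_co.KD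

open KEP KEP.En

theorem E6 : Ef.From 13 15 6 (gf G6) 8 0 :=
  E6_0 (E6_1 (E6_2 (Ef.fin_sound (show Ef.fin 15 6 8 1085 = true by decide +kernel))))

theorem E7 : Ef.From 13 13 7 (gf G7) 6 0 :=
  E7_0 (E7_1 (E7_2 (E7_3 (E7_4 (E7_5 (E7_6 (E7_7 (E7_8 (E7_9 (E7_10 (E7_11 (Ef.fin_sound (show Ef.fin 13 7 6 1454 = true by decide +kernel)))))))))))))

/-- the table of all heads -/
def GA : Tb ℕ := .nd G6 (.nd G7 GW)

theorem GW_spec : ∀ N < 16, ∀ j < 12, (13 ≤ N ∧ j + 4 ≤ N ∧ 4 ≤ j ∧ (N ≠ 13 ∨ 5 ≤ j)) →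
    ∃ k ∈ List.range 20, Nat.land (GW.get k) 15 = N ∧ bits (GW.get k) 4 15 = 15 ∧
      bits (GW.get k) 8 31 = j + 4 ∧ dL (GW.get k) = wheel (j + 3) := by
  set_option synthInstance.maxSize 1000 in decide +kernel

/-- The table covers all triangulations with 13, 14 or 15 vertices. -/
theorem covS : CovS GA := by
  intro V _ _ T h h13 h15
  obtain ⟨v, -, hv⟩ := Finset.exists_max_image Finset.univ (deg T) (by
    rw [Finset.univ_nonempty_iff, ← Fintype.card_pos_iff]; omega)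
  have hv : ∀ w, deg T w ≤ deg T v := fun w => hv w (Finset.mem_univ w)
  obtain ⟨u, hu⟩ := exists_six h h13
  obtain ⟨j, hj⟩ : ∃ j, deg T v = j + 3 := ⟨deg T v - 3, by have := hv u; omega⟩
  by_cases c6 : j = 3
  · subst c6
    exact hit_left (hit_of_goal G_ok.1
      (Ef.From.goal (j := 3) E6 ⟨h, h15, by norm_num, fun w => hj ▸ hv w⟩ h13 v hj))
  by_cases c7 : j = 4 ∧ Fintype.card V = 13
  · obtain ⟨rfl, c⟩ := c7
    exact hit_right (hit_left (hit_of_goal G_ok.2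
      (Ef.From.goal (j := 4) E7 ⟨h, c.le, by norm_num, fun w => hj ▸ hv w⟩ h13 v hj)))
  obtain ⟨ι, -, e⟩ := exists_wheel h v j hj
  have le := e.le_card
  have := hv u
  obtain ⟨k, -, k1, k2, k3, k4⟩ := GW_spec (Fintype.card V) (by omega) j (by omega)
    (by omega)
  refine hit_right (hit_right ⟨k, k1, k2, by omega, ?_, ι, Or.inl ?_⟩)
  · rw [k3, k4]; exact ok_wheel j
  · rw [k3, k4]; exact e

end Pool.Agent.Lib.MP_f3b2fd_co.KD
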