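import Mathlib
import Pool.Agent.Lib.MP_f3b2fd_co.KEP.B.Cv.Bit

set_option autoImplicit false
set_option linter.unusedSectionVars false
set_option linter.unusedVariables false

namespace Pool.Agent.Lib.MP_f3b2fd_co.KEP.Ef

open En

/-- the mask of directed edges with a sentinel; zero if an edge is repeated -/
noncomputable def nd (L : List Tr) : ℕ :=
  List.rec (bt 400) (fun t _ ih => frc 0 ih fun E => cond (Nat.beq E 0) 0
    (cond (tb E (ix t.1 t.2.1)) 0 (cond (tb E (ix t.2.1 t.2.2)) 0 (cond (tb E (ix t.2.2 t.1)) 0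
      (cond (Nat.beq t.1 t.2.1) 0 (addO E t.1 t.2.1 t.2.2)))))) L

theorem nd_spec (L : List Tr) (h : nd L ≠ 0) :
    (darts L).Nodup ∧ ∀ a b, Kn L a b → (nd L).testBit (16 * a + b + 64) = true := by
  induction L with
  | nil => simp [darts, Kn]
  | cons t L ih =>
    obtain ⟨p, q, r⟩ := t
    have e : nd ((p, q, r) :: L) = cond (Nat.beq (nd L) 0) 0
      (cond (tb (nd L) (ix p q)) 0 (cond (tb (nd L) (ix q r)) 0 (cond (tb (nd L) (ix r p)) 0
        (cond (Nat.beq p q) 0 (addO (nd L) p q r))))) := rfl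
    rw [e] at h ⊢
    cases c0 : Nat.beq (nd L) 0 <;> cases c1 : tb (nd L) (ix p q) <;>
      cases c2 : tb (nd L) (ix q r) <;> cases c3 : tb (nd L) (ix r p) <;>
      cases c4 : Nat.beq p q <;> simp only [c0, c1, c2, c3, c4, cond_true, cond_false] at h ⊢ <;>
      try exact absurd rfl h
    obtain ⟨i1, i2⟩ := ih (Nat.ne_of_beq_eq_false c0)
    have pq := Nat.ne_of_beq_eq_false c4
    rw [tb_eq, ix_eq] at c1 c2 c3
    have m : ∀ {a b c}, (nd L).testBit (16 * a + b + 64) = false → (a, b, c) ∉ darts L :=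
      fun f k => by rw [i2 _ _ ⟨_, k⟩] at f; exact Bool.noConfusion f
    constructor
    · simp only [darts, List.nodup_cons, List.mem_cons, Prod.mk.injEq, m c1, m c2, m c3, i1,
        or_false, not_false_eq_true, and_true]
      omega
    · intro a b k
      rw [test_addO]
      rcases kn_cons.1 k with ⟨rfl, rfl⟩ | ⟨rfl, rfl⟩ | ⟨rfl, rfl⟩ | k
      · simp
      · simp
      · simp
      · simp [i2 _ _ k]

/-- one pass of the search for the triangles that are reached across edges -/
noncomputable def pass (l : List Tr) : ℕ → ℕ :=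
  List.rec (fun R => R) (fun t _ ih R => frc 0 (cond (cond (tb R (ix t.2.1 t.1)) true
    (cond (tb R (ix t.2.2 t.2.1)) true (tb R (ix t.1 t.2.2)))) (addO R t.1 t.2.1 t.2.2) R) ih) l

/-- all triangles are reached -/
noncomputable def allR (R : ℕ) (l : List Tr) : Bool :=
  List.rec true (fun t _ ih => cond (tb R (ix t.1 t.2.1)) ih false) l

/-- the list is well formed; `k` is the number of passes -/
noncomputable def okB (k n : ℕ) (L : List Tr) : Bool :=
  cond (Nat.ble n 16) (cond (Nat.beq (Nat.succ (vm L)) (bt n)) (cond (Nat.beq (nd L) 0) false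
    (List.rec true (fun t _ _ => frc false (Nat.rec (addO 0 t.1 t.2.1 t.2.2)
      (fun _ R => pass L R) k) fun R => allR R L) L)) false) false

theorem okB_sound {k n : ℕ} {L : List Tr} (c : okB k n L = true) : n ≤ 16 ∧ Ok n L := by
  unfold okB at c
  simp only [Bool.cond_false_right, Bool.and_eq_true, Nat.ble_eq] at c
  obtain ⟨le, c1, c2⟩ := c
  have c1 : vm L = 2 ^ n - 1 := by
    have : vm L + 1 = 1 <<< n := Nat.eq_of_beq_eq_true c1
    rw [Nat.one_shiftLeft] at this
    omega
  have oc : ∀ i, i < n ↔ ∃ b c, (i, b, c) ∈ darts L := fun i => by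
    rw [← vm_test, c1, Nat.testBit_two_pow_sub_one, decide_eq_true_eq]
  have lt : ∀ a b c, (a, b, c) ∈ darts L → a < 16 := fun a b c m =>
    ((oc a).2 ⟨b, c, m⟩).trans_le le
  cases z : Nat.beq (nd L) 0
  swap
  · simp [z] at c2
  rw [z, cond_false] at c2
  refine ⟨le, fun a b c m => (oc a).2 ⟨b, c, m⟩, fun i hi => (oc i).1 hi,
    (nd_spec L (Nat.ne_of_beq_eq_false z)).1, fun s r e => ?_⟩
  rcases L with _ | ⟨t0, L0⟩
  · simp [Kn, darts]
  generalize hL : t0 :: L0 = L at *
  have m0 : t0 ∈ L := hL ▸ List.mem_cons_self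
  let I : ℕ → Prop := fun R => ∀ a b, b < 16 → R.testBit (16 * a + b + 64) = true →
    Kn L a b ∧ s a b = s t0.1 t0.2.1
  have ad : ∀ R p q w, I R → (p, q, w) ∈ darts L → s p q = s t0.1 t0.2.1 → I (addO R p q w) := by
    intro R p q w i m h a b hb k
    have m1 := darts_rot m
    have m2 := darts_rot m1
    have := lt _ _ _ m
    have := lt _ _ _ m1
    have := lt _ _ _ m2
    rw [test_addO] at k
    rcases k with k | k | k | k
    · exact i a b hb k
    · obtain ⟨rfl, rfl⟩ : p = a ∧ q = b := by omega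
      exact ⟨⟨_, m⟩, h⟩
    · obtain ⟨rfl, rfl⟩ : q = a ∧ w = b := by omega
      exact ⟨⟨_, m1⟩, (r _ _ _ m).symm.trans h⟩
    · obtain ⟨rfl, rfl⟩ : w = a ∧ p = b := by omega
      exact ⟨⟨_, m2⟩, (r _ _ _ m2).trans h⟩
  have ps : ∀ l : List Tr, (∀ t ∈ l, t ∈ L) → ∀ R, I R → I (pass l R) := by
    intro l
    induction l with
    | nil => exact fun _ _ i => i
    | cons t l ih =>
      intro sub R i
      obtain ⟨p, q, w⟩ := t
      refine ih (fun t ht => sub t (List.mem_cons_of_mem _ ht)) (cond (cond (tb R (ix q p)) true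
        (cond (tb R (ix w q)) true (tb R (ix p w)))) (addO R p q w) R) ?_
      have m := mem_darts (sub _ List.mem_cons_self)
      have m1 := darts_rot m
      have m2 := darts_rot m1
      simp only [tb_eq, ix_eq]
      cases c1 : R.testBit (16 * q + p + 64)
      · cases c2 : R.testBit (16 * w + q + 64)
        · cases c3 : R.testBit (16 * p + w + 64)
          · exact i
          · obtain ⟨k, h⟩ := i _ _ (lt _ _ _ m2) c3
            exact ad _ _ _ _ i m ((r _ _ _ m2).symm.trans ((e _ _ ⟨_, m2⟩ k).trans h))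
        · obtain ⟨k, h⟩ := i _ _ (lt _ _ _ m1) c2
          exact ad _ _ _ _ i m ((r _ _ _ m).trans ((e _ _ ⟨_, m1⟩ k).trans h))
      · obtain ⟨k, h⟩ := i _ _ (lt _ _ _ m) c1
        exact ad _ _ _ _ i m ((e _ _ ⟨_, m⟩ k).trans h)
  have it : ∀ k : ℕ, I (Nat.rec (addO 0 t0.1 t0.2.1 t0.2.2) (fun _ R => pass L R) k) := by
    intro k
    induction k with
    | zero => exact ad 0 _ _ _ (fun a b _ k => by simp at k) (mem_darts m0) rfl
    | succ k ih => exact ps L (fun _ h => h) _ ih
  have c2 : allR (Nat.rec (addO 0 t0.1 t0.2.1 t0.2.2) (fun _ R => pass L R) k) L = true := by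
    subst hL; exact c2
  have i := it k
  generalize (Nat.rec (addO 0 t0.1 t0.2.1 t0.2.2) (fun _ R => pass L R) k : ℕ) = R at c2 i
  have al : ∀ l : List Tr, allR R l = true → ∀ t ∈ l, R.testBit (16 * t.1 + t.2.1 + 64) = true := by
    intro l
    induction l with
    | nil => simp
    | cons t l ih =>
      intro c u hu
      have c : cond (tb R (ix t.1 t.2.1)) (allR R l) false = true := c
      rw [Bool.cond_false_right, Bool.and_eq_true, tb_eq, ix_eq] at c
      rcases List.mem_cons.1 hu with rfl | hu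
      · exact c.1
      · exact ih c.2 u hu
  have fin : ∀ a b, Kn L a b → s a b = s t0.1 t0.2.1 := fun a b ⟨c, m⟩ =>
    (darts_ind (fun a b c => (a, b, c) ∈ darts L ∧ s a b = s t0.1 t0.2.1)
      (fun a b c h => ⟨darts_rot h.1, (r _ _ _ h.1).symm.trans h.2⟩)
      (fun t ht => ⟨mem_darts ht, (i _ _ (lt _ _ _ (darts_rot (mem_darts ht))) (al L c2 t ht)).2⟩)
      m).2
  intro a b a' b' h h'
  rw [fin _ _ h, fin _ _ h']

end Pool.Agent.Lib.MP_f3b2fd_co.KEP.Ef
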