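import Mathlib
import Pool.Agent.Lib.MP_f3b2fd_co.KEP.B.Cv.Bit
import Pool.Agent.Lib.MP_f3b2fd_co.KEP.B.EnumR

set_option autoImplicit false
set_option linter.unusedSectionVars false
set_option linter.unusedVariables false

namespace Pool.Agent.Lib.MP_f3b2fd_co.KEP.Ef

open En

/-- functions of a state and an accumulator -/
abbrev Fn (α : Type) := ℕ → ℕ → ℕ → ℕ → List (List ℕ) → α → α

section

variable {α : Type} (z : α) (nmax c : ℕ) (lf f : Fn α)

/-- last stage of `mk` -/
noncomputable def mk3 (n : ℕ) (H : List (List ℕ)) (acc : α) (D E ET : ℕ) : α :=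
  Nat.rec z (fun D _ => f n E ET D H acc) (Nat.add D 1)

/-- second stage of `mk` -/
noncomputable def mk2 (n : ℕ) (H : List (List ℕ)) (acc : α) (ET D E : ℕ) : α :=
  Nat.rec z (fun ET _ => mk3 z f n H acc D E ET) (Nat.add ET 1)

/-- evaluate the masks of the grown state and hand them to `f` -/
noncomputable def mk (n E ET D b a d : ℕ) (H : List (List ℕ)) (acc : α) : α :=
  Nat.rec z (fun E _ => mk2 z f n H acc (Nat.xor ET (dE b d a)) (Nat.xor D (dD b a d)) E)
    (Nat.add (Nat.xor E (dE b a d)) 1)

/-- the three degree tests -/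
noncomputable def ok3 (b a d S : ℕ) : Bool :=
  Bool.rec false (Bool.rec false (vok c S b) (vok c S a)) (vok c S d)

/-- the two degree tests -/
noncomputable def ok2 (b a S : ℕ) : Bool := Bool.rec false (vok c S b) (vok c S a)

/-- `d` is excluded -/
noncomputable def out (S a b B M d : ℕ) : Bool :=
  Bool.rec (Bool.rec true false (frc false (Nat.lor S (dS b a d)) (ok3 c b a d))) true
    (badB B M a d)

/-- the children with an old third vertex -/
noncomputable def olds (n E ET D S a b B M : ℕ) (R : List (List ℕ)) (acc : α) (l : List ℕ) :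
    List ℕ → α :=
  List.rec (fun _ => acc) (fun d post ih pre => Bool.rec
    (mk z f n E ET D b a d (holes a b d pre post R) (ih (d :: pre))) (ih (d :: pre))
    (out c S a b B M d)) l

/-- the child with a new third vertex -/
noncomputable def news (n E ET D S a b : ℕ) (H : List (List ℕ)) (acc : α) : α :=
  Bool.rec acc (Nat.rec z (fun n' _ => mk z f n' E ET D b a n H acc) (Nat.add n 2))
    (Bool.rec false (frc false (Nat.lor S (dS b a n)) (ok2 c b a)) (Nat.blt n nmax))

/-- last stage of `grow` -/
noncomputable def grow4 (n E ET D a b : ℕ) (l : List ℕ) (R : List (List ℕ)) (acc : α)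
    (M B S : ℕ) : α :=
  news z nmax c f n E ET D S a b ((a :: n :: b :: l) :: R)
    (olds z c f n E ET D S a b B M R acc l [])

/-- third stage of `grow` -/
noncomputable def grow3 (n E ET D a b : ℕ) (l : List ℕ) (R : List (List ℕ)) (acc : α)
    (M B : ℕ) : α :=
  Nat.rec z (fun S _ => grow4 z nmax c f n E ET D a b l R acc M B S) (Nat.add (Nat.lor E ET) 1)

/-- second stage of `grow` -/
noncomputable def grow2 (n E ET D a b : ℕ) (l : List ℕ) (R : List (List ℕ)) (acc : α)
    (M : ℕ) : α :=
  Nat.rec z (fun B _ => grow3 z nmax c f n E ET D a b l R acc M B) (Nat.add (badR E ET M a b) 1)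

/-- the known edges off the walk plus one, or zero if the walk is not open -/
noncomputable def offw (E ET M : ℕ) : ℕ :=
  Bool.rec 0 (Nat.add (Nat.xor E M) 1) (Nat.beq (Nat.land M (Nat.xor E (Nat.land E ET))) M)

/-- One growth step across the first edge of the hole `a :: b :: l`, folded over the children. -/
noncomputable def grow (n E ET D a b : ℕ) (l : List ℕ) (R : List (List ℕ)) (acc : α) : α :=
  Nat.rec z (fun M _ => grow2 z nmax c f n E ET D a b l R acc M)
    (frc 0 (wm a (b :: l) a) (offw E ET))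

/-- the first hole -/
noncomputable def hole (n E ET D : ℕ) (R : List (List ℕ)) (acc : α) (w : List ℕ) : α :=
  List.rec z (fun a l _ => List.rec z (fun b l _ => grow z nmax c f n E ET D a b l R acc) l) w

/-- Grow at the first hole, or call `lf` if there is none. -/
noncomputable def step : Fn α := fun n E ET D H acc =>
  List.rec (lf n E ET D H acc) (fun w R _ => hole z nmax c f n E ET D R acc w) H

end

variable {V : Type} [Fintype V] [DecidableEq V]

/-- The state leads to the goal. -/
def Good (T : Finset (V × V × V)) (G : Prop) (n E ET D : ℕ) : Prop :=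
  ∀ L ι, Rep n E ET D L → Emb T n L ι → G

/-- `f` is sound -/
def Snd (T : Finset (V × V × V)) (G : Prop) {α : Type} (Q : α → Prop) (f : Fn α) : Prop :=
  ∀ n E ET D H a, Q (f n E ET D H a) → Good T G n E ET D ∧ Q a

/-- the global hypotheses -/
structure Hyp (T : Finset (V × V × V)) (nmax c : ℕ) : Prop where
  cx : IsCx T
  card : Fintype.card V ≤ nmax
  le : nmax ≤ 16
  deg : ∀ w, deg T w ≤ c

variable {T : Finset (V × V × V)} {G : Prop} {nmax c : ℕ}
  {α : Type} {z : α} {Q : α → Prop} {lf f : Fn α}

theorem olds_sound (x : Hyp T nmax c) (hf : Snd T G Q f) {n E ET D a b B M : ℕ}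
    {R : List (List ℕ)} {acc : α} (l pre : List ℕ)
    (q : Q (olds z c f n E ET D (Nat.lor E ET) a b B M R acc l pre)) :
    Q acc ∧ ∀ d ∈ l, badB B M a d = false → ∀ L ι, Rep n E ET D L →
      Rep n (Nat.xor E (dE b a d)) (Nat.xor ET (dE b d a)) (Nat.xor D (dD b a d))
        ((b, a, d) :: L) → Emb T n ((b, a, d) :: L) ι → G := by
  induction l generalizing pre with
  | nil => exact ⟨q, by simp⟩
  | cons d post ih =>
    have q : Q (Bool.rec (f n (Nat.xor E (dE b a d)) (Nat.xor ET (dE b d a))
      (Nat.xor D (dD b a d)) (holes a b d pre post R)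
        (olds z c f n E ET D (Nat.lor E ET) a b B M R acc post (d :: pre)))
      (olds z c f n E ET D (Nat.lor E ET) a b B M R acc post (d :: pre))
      (out c (Nat.lor E ET) a b B M d)) := q
    cases o : out c (Nat.lor E ET) a b B M d <;> rw [o] at q
    · obtain ⟨q2, q1⟩ := hf _ _ _ _ _ _ q
      refine ⟨(ih _ q1).1, fun d' hd => ?_⟩
      rcases List.mem_cons.1 hd with rfl | hd
      · exact fun _ L ι _ R' e => q2 _ ι R' e
      · exact (ih _ q1).2 d' hd
    · refine ⟨(ih _ q).1, fun d' hd => ?_⟩
      rcases List.mem_cons.1 hd with rfl | hd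
      · intro c' L ι R0 R' e
        rw [out, c', frc_eq, ok3, R0.vok x.cx R'.ok R'.le e x.deg, R0.vok x.cx R'.ok R'.le e x.deg,
          R0.vok x.cx R'.ok R'.le e x.deg] at o
        exact Bool.noConfusion o
      · exact (ih _ q).2 d' hd

theorem grow_sound (x : Hyp T nmax c) (hz : ¬Q z) (hf : Snd T G Q f) {n E ET D a b : ℕ}
    {l : List ℕ} {R : List (List ℕ)} {acc : α}
    (q : Q (grow z nmax c f n E ET D a b l R acc)) : Good T G n E ET D ∧ Q acc := by
  rw [grow, frc_eq, offw] at q
  cases w : Nat.beq (Nat.land (wm a (b :: l) a) (Nat.xor E (Nat.land E ET))) (wm a (b :: l) a) <;>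
    rw [w] at q
  · exact absurd q hz
  generalize hM : Nat.xor E (wm a (b :: l) a) = M at q
  have q : Q (Bool.rec (olds z c f n E ET D (Nat.lor E ET) a b (badR E ET M a b) M R acc l [])
    (f (n + 1) (Nat.xor E (dE b a n)) (Nat.xor ET (dE b n a)) (Nat.xor D (dD b a n))
      ((a :: n :: b :: l) :: R)
      (olds z c f n E ET D (Nat.lor E ET) a b (badR E ET M a b) M R acc l []))
    (Bool.rec false (ok2 c b a (Nat.lor (Nat.lor E ET) (dS b a n))) (Nat.blt n nmax))) := q
  subst hM
  cases k : (Bool.rec false (ok2 c b a (Nat.lor (Nat.lor E ET) (dS b a n))) (Nat.blt n nmax) :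
    Bool) <;> rw [k] at q
  · obtain ⟨q1, q2⟩ := olds_sound x hf _ _ q
    refine ⟨fun L ι Rp e => ?_, q1⟩
    rcases Rp.grow x.cx e w with ⟨hn, ι', e', R'⟩ | ⟨d, hd, bd, e', R'⟩
    · have R' := R' ((hn.trans_le x.card).trans_le x.le)
      rw [blt_iff.2 (hn.trans_le x.card), ok2, Rp.vok x.cx R'.ok R'.le e' x.deg,
        Rp.vok x.cx R'.ok R'.le e' x.deg] at k
      exact Bool.noConfusion k
    · exact q2 d hd bd L ι Rp R' e'
  · obtain ⟨q3, q0⟩ := hf _ _ _ _ _ _ q
    obtain ⟨q1, q2⟩ := olds_sound x hf _ _ q0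
    refine ⟨fun L ι Rp e => ?_, q1⟩
    rcases Rp.grow x.cx e w with ⟨hn, ι', e', R'⟩ | ⟨d, hd, bd, e', R'⟩
    · exact q3 _ ι' (R' ((hn.trans_le x.card).trans_le x.le)) e'
    · exact q2 d hd bd L ι Rp R' e'

theorem step_sound (x : Hyp T nmax c) (hz : ¬Q z) (hl : Snd T G Q lf) (hf : Snd T G Q f) :
    Snd T G Q (step z nmax c lf f) := by
  intro n E ET D H acc q
  rcases H with _ | ⟨_ | ⟨a, _ | ⟨b, l⟩⟩, R⟩
  · exact hl _ _ _ _ _ _ q
  · exact absurd q hz
  · exact absurd q hz
  · exact grow_sound x hz hf q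

/-- the labels are permuted and the triangles are known -/
noncomputable def go3 (n D : ℕ) (L' : List Tr) (m σ : ℕ) : Bool :=
  Bool.rec false (Nat.rec (allD ix3 D σ L') (fun _ _ => allD ix3r D σ L') m)
    (Nat.beq (Nat.succ (imM σ n)) (bt n))

/-- the complete state is the stored graph named by the hint `x` -/
noncomputable def goB (GG : Tab) (n D x : ℕ) : Bool :=
  Prod.rec (fun n' L' => Bool.rec false (frc false (Nat.shiftRight x 15)
    (go3 n D L' (Nat.land x 16384))) (Nat.beq n' n)) (frc (0, []) (Nat.land x 16383) GG)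

theorem goB_sound {GG : Tab} {n E ET D y : ℕ} {L : List Tr} {ι : ℕ → V} (h : IsCx T)
    (R : Rep n E ET D L) (e : Emb T n L ι) (hn : n = Fintype.card V)
    (c : goB GG n D y = true) : Goal T GG := by
  rw [goB, frc_eq] at c
  refine ⟨Nat.land y 16383, ?_⟩
  generalize GG (Nat.land y 16383) = g at c ⊢
  obtain ⟨n', L'⟩ := g
  simp only [frc_eq, go3] at c
  cases c1 : Nat.beq n' n <;> rw [c1] at c
  · exact Bool.noConfusion c
  obtain rfl := Nat.eq_of_beq_eq_true c1
  cases c2 : Nat.beq (Nat.succ (imM (Nat.shiftRight y 15) n')) (bt n') <;> rw [c2] at c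
  · exact Bool.noConfusion c
  rcases t : Nat.land y 16384 with _ | m <;> rw [t] at c
  · exact ⟨_, hn, Or.inl (R.goto h e c2 c)⟩
  · exact ⟨_, hn, Or.inr (R.goto_mir h e c2 c)⟩

/-- the check at a state without holes; the counter names the next hint -/
noncomputable def lfN (nmin : ℕ) (GG : Tab) (HT : ℕ) : Fn ℕ := fun n E ET D _ c =>
  Bool.rec 0 (Bool.rec (Bool.rec 0 (Nat.succ c) (frc false (Nat.land
    (Nat.shiftRight HT (Nat.mul 80 c)) 1208925819614629174706175) (goB GG n D))) c
    (Nat.blt n nmin)) (Nat.beq (Nat.shiftRight (Nat.xor E ET) 64) 0)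

/-- the whole subtree -/
noncomputable def run (nmin nmax c : ℕ) (GG : Tab) (HT k : ℕ) : Fn ℕ :=
  Nat.rec (fun _ _ _ _ _ _ => 0) (fun _ ih n E ET D H a => Nat.rec 0
    (fun m _ => step 0 nmax c (lfN nmin GG HT) ih n E ET D H (Nat.succ m)) a) k

theorem run_sound {nmin HT : ℕ} {GG : Tab} (x : Hyp T nmax c) (hm : nmin ≤ Fintype.card V)
    (k : ℕ) : Snd T (Goal T GG) (fun c => c ≠ 0) (run nmin nmax c GG HT k) := by
  induction k with
  | zero => exact fun _ _ _ _ _ _ q => absurd rfl q
  | succ k ih =>
    rintro n E ET D H (_ | m) q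
    · exact absurd rfl q
    have hl : Snd T (Goal T GG) (fun c => c ≠ 0) fun n E ET D H a =>
        Nat.rec 0 (fun m _ => lfN nmin GG HT n E ET D H (Nat.succ m)) a := by
      rintro n E ET D H (_ | m) q
      · exact absurd rfl q
      refine ⟨fun L ι R e => ?_, m.succ_ne_zero⟩
      simp only [lfN, frc_eq] at q
      cases c : Nat.beq (Nat.shiftRight (Nat.xor E ET) 64) 0 <;> rw [c] at q
      · exact absurd rfl q
      have hn := R.card x.cx e c
      cases b : Nat.blt n nmin <;> rw [b] at q
      · cases g : goB GG n D (Nat.land (Nat.shiftRight HT (Nat.mul 80 m.succ))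
          1208925819614629174706175) <;> rw [g] at q
        · exact absurd rfl q
        · exact goB_sound x.cx R e hn g
      · have := blt_iff.1 b
        omega
    refine step_sound (z := 0) x (by simp) hl ih n E ET D H m.succ ?_
    cases H <;> exact q

/-- a stored state -/
structure S5 where
  /-- number of labels -/
  n : ℕ
  /-- known directed edges -/
  E : ℕ
  /-- the transpose -/
  ET : ℕ
  /-- known darts -/
  D : ℕ
  /-- boundary cycles -/
  H : List (List ℕ)

/-- store a state -/
noncomputable def cns : Fn (Option (List S5)) := fun n E ET D H o =>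
  Option.rec none (fun l => some (⟨n, E, ET, D, H⟩ :: l)) o

/-- the states at depth `k` -/
noncomputable def front (nmax c k : ℕ) : Fn (Option (List S5)) :=
  Nat.rec cns (fun _ ih n E ET D H o =>
    Option.rec none (fun l => step none nmax c cns ih n E ET D H (some l)) o) k

theorem front_sound (x : Hyp T nmax c) (k : ℕ) : Snd T G
    (fun o => ∃ l : List S5, o = some l ∧ ∀ s ∈ l, Good T G s.n s.E s.ET s.D) (front nmax c k) := by
  have base : Snd T G (fun o => ∃ l : List S5, o = some l ∧ ∀ s ∈ l, Good T G s.n s.E s.ET s.D)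
      cns := by
    rintro n E ET D H (_ | l) ⟨l', e, g⟩
    · exact absurd (show (none : Option (List S5)) = some l' from e) (by simp)
    · obtain rfl := Option.some.inj e
      exact ⟨g _ List.mem_cons_self, l, rfl, fun s hs => g s (List.mem_cons_of_mem _ hs)⟩
  induction k with
  | zero => exact base
  | succ k ih =>
    rintro n E ET D H (_ | l) q
    · obtain ⟨l, e, -⟩ := q
      exact absurd (show (none : Option (List S5)) = some l from e) (by simp)
    exact step_sound x (by simp) base ih n E ET D H _ q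

/-- the states at depth `k` over the wheel of degree `c` -/
noncomputable def fr (nmax c k : ℕ) : Option (List S5) :=
  frc none (mkE (wheel c)) fun E => frc none (mkT (wheel c)) fun ET => frc none (mkD (wheel c))
    fun D => frc none (Nat.succ c) fun n => front nmax c k n E ET D [List.range' 1 c] (some [])

/-- the subtrees of the states number `i` to `i + m - 1` at depth `k` -/
noncomputable def chk (nmin nmax c : ℕ) (GG : Tab) (k i m HT : ℕ) : Bool :=
  Option.rec false (fun l => Nat.blt 0 (List.rec 1 (fun s _ ih =>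
    S5.rec (fun n E ET D H => run nmin nmax c GG HT 40 n E ET D H ih) s) (tk m (dr i l))))
    (fr nmax c k)

/-- there are at most `i` states at depth `k` -/
noncomputable def fin (nmax c k i : ℕ) : Bool :=
  Option.rec false (fun l => List.rec true (fun _ _ _ => false) (dr i l)) (fr nmax c k)

/-- all states from number `i` on lead to the goal -/
def From (nmin nmax c : ℕ) (GG : Tab) (k i : ℕ) : Prop :=
  ∀ (V : Type) [Fintype V] [DecidableEq V] (T : Finset (V × V × V)),
    Hyp T nmax c → nmin ≤ Fintype.card V →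
    ∃ l, fr nmax c k = some l ∧ ∀ s ∈ l.drop i, Good T (Goal T GG) s.n s.E s.ET s.D

theorem fin_sound {nmin k i : ℕ} {GG : Tab} (h : fin nmax c k i = true) :
    From nmin nmax c GG k i := by
  intro V _ _ T _ _
  unfold fin at h
  rcases e : fr nmax c k with _ | l <;> rw [e] at h
  · exact Bool.noConfusion h
  refine ⟨l, rfl, ?_⟩
  simp only [dr_eq] at h
  rcases e' : l.drop i with _ | ⟨s, t⟩ <;> rw [e'] at h
  · simp
  · exact Bool.noConfusion h

theorem chk_sound {nmin k : ℕ} (i m : ℕ) {HT : ℕ} {GG : Tab}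
    (h : chk nmin nmax c GG k i m HT = true) (p : From nmin nmax c GG k (i + m)) :
    From nmin nmax c GG k i := by
  intro V _ _ T x hm
  obtain ⟨l, e, g⟩ := p V T x hm
  refine ⟨l, e, ?_⟩
  unfold chk at h
  rw [e] at h
  simp only [dr_eq, tk_eq, Nat.blt_eq] at h
  have all : ∀ r : List S5, (List.rec 1 (fun s _ ih =>
      S5.rec (fun n E ET D H => run nmin nmax c GG HT 40 n E ET D H ih) s) r : ℕ)
      ≠ 0 → ∀ s ∈ r, Good T (Goal T GG) s.n s.E s.ET s.D := by
    intro r
    induction r with
    | nil => simp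
    | cons s r ih =>
      intro q s' hs
      obtain ⟨q1, q2⟩ := run_sound x hm 40 s.n s.E s.ET s.D s.H _ q
      rcases List.mem_cons.1 hs with rfl | hs
      · exact q1
      · exact ih q2 s' hs
  intro s hs
  rw [← List.take_append_drop m (l.drop i), List.mem_append, List.drop_drop] at hs
  exact hs.elim (all _ h.ne' s) (g s)

/-- The enumeration from a vertex of maximal degree. -/
theorem From.goal {nmin k j : ℕ} {GG : Tab} (p : From nmin nmax (j + 3) GG k 0)
    (x : Hyp T nmax (j + 3)) (h1 : nmin ≤ Fintype.card V) (v : V) (hv : deg T v = j + 3) :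
    Goal T GG := by
  obtain ⟨l, e, g⟩ := p V T x h1
  obtain ⟨ι, -, em⟩ := exists_wheel x.cx v j hv
  exact (front_sound x k _ _ _ _ _ _ ⟨l, e, g⟩).1 _ ι (ok_rep (ok_wheel j) (by omega)
    (em.le_card.trans (x.card.trans x.le))) em

end Pool.Agent.Lib.MP_f3b2fd_co.KEP.Ef
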