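import Pool.Agent.Lib.MP_f3b2fd_co.KEP.B.D.Glue
import Pool.Agent.Lib.MP_f3b2fd_co.KEP.B.Cv.Run
import Pool.Agent.Lib.MP_f3b2fd_co.KEP.B.Cv.OkB

set_option autoImplicit false

namespace Pool.Agent.Lib.MP_f3b2fd_co.KD

open KEP KEP.En

/-- the table of heads as a table of labelled triangulations -/
noncomputable def gf (G : Tb ℕ) : Tab := fun k =>
  frc (0, []) (G.get k) fun hd => (bits hd 8 31, dL hd)

/-- the head of a well formed complex that uses all points -/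
noncomputable def hdB (k hd : ℕ) : Bool :=
  cond (Nat.beq (Nat.land hd 15) (bits hd 8 31))
    (cond (Nat.beq (bits hd 4 15) 15) (Ef.okB k (bits hd 8 31) (dL hd)) false) false

variable {V : Type} [Fintype V] [DecidableEq V] {T : Finset (V × V × V)}

theorem hit_of_goal {G : Tb ℕ} {k : ℕ} (c : G.all (hdB k) = true) (g : Goal T (gf G)) :
    ∃ i, Hit T (G.get i) := by
  obtain ⟨i, ι, h1, h2⟩ := g
  have a := Tb.all_sound (P := fun hd => hdB k hd = true) (fun _ h => h) G c i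
  simp only [hdB, Bool.cond_false_right, Bool.and_eq_true] at a
  obtain ⟨o1, o2⟩ := Ef.okB_sound a.2.2
  exact ⟨i, (Nat.eq_of_beq_eq_true a.1).trans h1, Nat.eq_of_beq_eq_true a.2.1, o1, o2, ι, h2⟩

theorem hit_left {l r : Tb ℕ} (h : ∃ i, Hit T (l.get i)) : ∃ i, Hit T ((Tb.nd l r).get i) := by
  obtain ⟨i, h⟩ := h
  refine ⟨2 * i, ?_⟩
  show Hit T (Nat.rec (motive := fun _ => ℕ) (l.get ((2 * i) >>> 1))
    (fun _ _ => r.get ((2 * i) >>> 1)) ((2 * i) &&& 1))
  rw [Nat.and_one_is_mod, Nat.shiftRight_one, Nat.mul_mod_right,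
    Nat.mul_div_cancel_left _ two_pos]
  exact h

theorem hit_right {l r : Tb ℕ} (h : ∃ i, Hit T (r.get i)) : ∃ i, Hit T ((Tb.nd l r).get i) := by
  obtain ⟨i, h⟩ := h
  refine ⟨2 * i + 1, ?_⟩
  show Hit T (Nat.rec (motive := fun _ => ℕ) (l.get ((2 * i + 1) >>> 1))
    (fun _ _ => r.get ((2 * i + 1) >>> 1)) ((2 * i + 1) &&& 1))
  rw [Nat.and_one_is_mod, Nat.shiftRight_one, show (2 * i + 1) % 2 = 0 + 1 by omega,
    show (2 * i + 1) / 2 = i by omega]
  exact h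

end Pool.Agent.Lib.MP_f3b2fd_co.KD
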