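import Pool.Agent.Lib.MP_f3b2fd_co.KEP.B.Cv.G6
import Pool.Agent.Lib.MP_f3b2fd_co.KEP.B.Cv.G7

set_option autoImplicit false
set_option maxRecDepth 100000
set_option maxHeartbeats 0

namespace Pool.Agent.Lib.MP_f3b2fd_co.KD

theorem Tb.all_nd {p : ℕ → Bool} {l r : Tb ℕ} (hl : l.all p = true) (hr : r.all p = true) :
    (Tb.nd l r).all p = true := (an_iff _ _).2 ⟨hl, hr⟩

theorem G_ok : G6.all (hdB 5) = true ∧ G7.all (hdB 1) = true :=
  ⟨by decide +kernel, Tb.all_nd (l := G7a) (r := G7b)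
    (Tb.all_nd (l := G7aa) (r := G7ab) (by decide +kernel) (by decide +kernel))
    (Tb.all_nd (l := G7ba) (r := G7bb) (by decide +kernel) (by decide +kernel))⟩

end Pool.Agent.Lib.MP_f3b2fd_co.KD
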